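import Pool.Agent.TH250.Z3.Stm
import Pool.Agent.H387R3.ZF.B2

/-!
# `B3`: archimedean bound of the linear form by the values on the line (second design)
-/

set_option autoImplicit false

open Polynomial Pool.Agent.H337R2

namespace Pool.Agent.TH480.Z3

open Pool.Agent.TH250.Z3
open Pool.Agent.TH817.Z3 (sF mF cF PF rho NL RK)

noncomputable section

namespace B3x

lemma aevalC (a : ℚ) (z : ℂ) : aeval z (C a : ℚ[X]) = ((a : ℝ) : ℂ) := by
  rw [aeval_C]; simp

lemma aeval_fac (j : ℕ) (z : ℂ) : aeval z (X + C (j : ℚ) : ℚ[X]) = z + (j : ℂ) := by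
  rw [map_add, aeval_X, aevalC]; simp

lemma PF_norm (n : ℕ) (z : ℂ) : ‖aeval z (PF n)‖ =
    (((9 * n / 2).factorial : ℕ) : ℝ) ^ 2 / (((5 * n / 2).factorial : ℕ) : ℝ) ^ 2 *
    ((∏ m ∈ Finset.Icc (n / 2 + 1) (3 * n), ‖z + (m : ℂ)‖) *
      ∏ m ∈ Finset.Icc (n + 1) (7 * n / 2), ‖z + (m : ℂ)‖) := by
  unfold PF
  rw [map_mul, aevalC, norm_mul, Complex.norm_real, map_mul, map_prod, map_prod, norm_mul,
    norm_prod, norm_prod]
  congr 1
  · unfold cF
    push_cast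
    rw [Real.norm_of_nonneg (by positivity)]
  · congr 1
    · apply Finset.prod_congr rfl
      intro j _
      rw [aeval_fac]
    · apply Finset.prod_congr rfl
      intro j _
      rw [aeval_fac]

lemma QQ_aeval (s : Finset ℕ) (μ : ℕ → ℕ) (z : ℂ) :
    aeval z (QQ s μ) = ∏ k ∈ s, (z + (k : ℂ)) ^ μ k := by
  unfold QQ
  rw [map_prod]
  apply Finset.prod_congr rfl
  intro j _
  rw [map_pow, aeval_fac]

lemma prod_mF (n : ℕ) (g : ℕ → ℝ) : ∏ k ∈ sF n, g k ^ mF n k =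
    (∏ k ∈ Finset.Icc (7 * n / 2 + 1) (8 * n), g k) *
      ∏ k ∈ Finset.Icc (4 * n + 1) (17 * n / 2), g k := by
  have h1 : ∀ k ∈ sF n, g k ^ mF n k =
      (if k ≤ 8 * n then g k else 1) * (if 4 * n < k then g k else 1) := by
    intro k _
    unfold mF
    rw [pow_add]
    congr 1
    · split_ifs <;> simp
    · split_ifs <;> simp
  rw [Finset.prod_congr rfl h1, Finset.prod_mul_distrib, ← Finset.prod_filter,
    ← Finset.prod_filter]
  congr 1
  · apply Finset.prod_congr _ (fun _ _ => rfl)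
    ext k
    simp only [sF, Finset.mem_filter, Finset.mem_Icc]
    omega
  · apply Finset.prod_congr _ (fun _ _ => rfl)
    ext k
    simp only [sF, Finset.mem_filter, Finset.mem_Icc]
    omega

lemma sum_mF (n : ℕ) : ∑ k ∈ sF n, mF n k = (8 * n - 7 * n / 2) + (17 * n / 2 - 4 * n) := by
  unfold mF
  rw [Finset.sum_add_distrib, ← Finset.card_filter, ← Finset.card_filter]
  congr 1
  · have : (sF n).filter (fun k => k ≤ 8 * n) = Finset.Icc (7 * n / 2 + 1) (8 * n) := by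
      ext k
      simp only [sF, Finset.mem_filter, Finset.mem_Icc]
      omega
    rw [this, Nat.card_Icc]
    omega
  · have : (sF n).filter (fun k => 4 * n < k) = Finset.Icc (4 * n + 1) (17 * n / 2) := by
      ext k
      simp only [sF, Finset.mem_filter, Finset.mem_Icc]
      omega
    rw [this, Nat.card_Icc]
    omega

lemma norm_refl (y : ℝ) (k : ℕ) : ‖zl y - (k : ℂ)‖ = ‖zl y + ((k + 1 : ℕ) : ℂ)‖ := by
  have h : (starRingEnd ℂ) (zl y - (k : ℂ)) = -(zl y + ((k + 1 : ℕ) : ℂ)) := by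
    unfold zl
    apply Complex.ext
    · simp
      ring
    · simp
  rw [← Complex.norm_conj, h, norm_neg]

lemma prod_above (y : ℝ) {a b L : ℕ} (h : L ≤ a) :
    ∏ m ∈ Finset.Ioc a b, ‖zl y - (L : ℂ) + (m : ℂ)‖ = GG y (a - L) (b - L) := by
  unfold GG
  refine Finset.prod_nbij' (fun m => m - L) (fun m => m + L) ?_ ?_ ?_ ?_ ?_
  · intro m hm
    rw [Finset.mem_Ioc] at hm ⊢
    omega
  · intro m hm
    rw [Finset.mem_Ioc] at hm ⊢
    omega
  · intro m hm
    rw [Finset.mem_Ioc] at hm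
    omega
  · intro m hm
    omega
  · intro m hm
    rw [Finset.mem_Ioc] at hm
    rw [Nat.cast_sub (by omega)]
    congr 1
    ring

lemma prod_below (y : ℝ) {a L : ℕ} :
    ∏ m ∈ Finset.Ioc a L, ‖zl y - (L : ℂ) + (m : ℂ)‖ = GG y 0 (L - a) := by
  unfold GG
  refine Finset.prod_nbij' (fun m => L - m + 1) (fun m => L + 1 - m) ?_ ?_ ?_ ?_ ?_
  · intro m hm
    rw [Finset.mem_Ioc] at hm ⊢
    omega
  · intro m hm
    rw [Finset.mem_Ioc] at hm ⊢
    omega
  · intro m hm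
    rw [Finset.mem_Ioc] at hm
    omega
  · intro m hm
    rw [Finset.mem_Ioc] at hm
    omega
  · intro m hm
    rw [Finset.mem_Ioc] at hm
    rw [← norm_refl, Nat.cast_sub hm.2]
    congr 1
    ring

lemma prod_split (y : ℝ) {a b L : ℕ} (h1 : a ≤ L) (h2 : L ≤ b) :
    ∏ m ∈ Finset.Ioc a b, ‖zl y - (L : ℂ) + (m : ℂ)‖ = GG y 0 (L - a) * GG y 0 (b - L) := by
  rw [← Finset.prod_Ioc_consecutive _ h1 h2, prod_below, prod_above y le_rfl, Nat.sub_self]

lemma Icc_Ioc (a b : ℕ) : Finset.Icc (a + 1) b = Finset.Ioc a b := by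
  ext k
  simp only [Finset.mem_Icc, Finset.mem_Ioc]
  omega

lemma LL_le (n : ℕ) : n ≤ LL n ∧ 3 * LL n ≤ 4 * n := by
  unfold LL
  omega

/-- `|R|` on the line -/
lemma R_norm (n : ℕ) (y : ℝ) :
    ‖aeval (zn n y) (PF n)‖ / ‖aeval (zn n y) (QQ (sF n) (mF n))‖ = NG n y := by
  have hL := LL_le n
  rw [PF_norm, QQ_aeval, norm_prod]
  have h1 : ∏ k ∈ sF n, ‖(zn n y + (k : ℂ)) ^ mF n k‖ =
      ∏ k ∈ sF n, ‖zn n y + (k : ℂ)‖ ^ mF n k :=
    Finset.prod_congr rfl fun k _ => norm_pow _ _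
  rw [h1, prod_mF n (fun k => ‖zn n y + (k : ℂ)‖)]
  unfold NG zn
  rw [Icc_Ioc, Icc_Ioc, Icc_Ioc, Icc_Ioc, prod_split y (by omega) (by omega),
    prod_split y (by omega) (by omega), prod_above y (by omega), prod_above y (by omega)]

lemma QQ_shift (n : ℕ) (y : ℝ) :
    aeval (zl y) (QQ (Finset.Icc (7 * n / 2 + 1 - LL n) (17 * n / 2 - LL n))
      (fun k => mF n (k + LL n))) = aeval (zn n y) (QQ (sF n) (mF n)) := by
  have hL := LL_le n
  rw [QQ_aeval, QQ_aeval]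
  refine Finset.prod_nbij' (fun m => m + LL n) (fun m => m - LL n) ?_ ?_ ?_ ?_ ?_
  · intro m hm
    simp only [sF, Finset.mem_Icc] at hm ⊢
    omega
  · intro m hm
    simp only [sF, Finset.mem_Icc] at hm ⊢
    omega
  · intro m hm
    omega
  · intro m hm
    simp only [sF, Finset.mem_Icc] at hm
    omega
  · intro m hm
    unfold zn
    push_cast
    congr 1
    ring

lemma P_shift (n : ℕ) (y : ℝ) (P : ℚ[X]) :
    aeval (zl y) (P.comp (X - C (LL n : ℚ))) = aeval (zn n y) P := by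
  rw [aeval_comp, map_sub, aeval_X, aevalC]
  unfold zn
  simp

lemma PF_deg (n : ℕ) : (PF n).natDegree ≤ (3 * n - n / 2) + (7 * n / 2 - n) := by
  unfold PF
  refine Polynomial.natDegree_mul_le.trans ?_
  rw [Polynomial.natDegree_C, zero_add]
  refine Polynomial.natDegree_mul_le.trans ?_
  have h : ∀ a b : ℕ, (∏ j ∈ Finset.Icc (a + 1) b, (X + C (j : ℚ))).natDegree ≤ b - a := by
    intro a b
    refine (Polynomial.natDegree_prod_le _ _).trans ?_
    calc ∑ j ∈ Finset.Icc (a + 1) b, (X + C (j : ℚ)).natDegree =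
          ∑ _j ∈ Finset.Icc (a + 1) b, 1 := by
          apply Finset.sum_congr rfl
          intro j _
          rw [Polynomial.natDegree_X_add_C]
      _ ≤ b - a := by
          rw [Finset.sum_const, smul_eq_mul, mul_one, Nat.card_Icc]
          omega
  exact add_le_add (h _ _) (h _ _)

lemma QQ_deg (n : ℕ) : (QQ (Finset.Icc (7 * n / 2 + 1 - LL n) (17 * n / 2 - LL n))
    (fun k => mF n (k + LL n))).natDegree = (8 * n - 7 * n / 2) + (17 * n / 2 - 4 * n) := by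
  have hL := LL_le n
  rw [QQ_natDegree, ← sum_mF n]
  refine Finset.sum_nbij' (fun m => m + LL n) (fun m => m - LL n) ?_ ?_ ?_ ?_ ?_
  · intro m hm
    simp only [sF, Finset.mem_Icc] at hm ⊢
    omega
  · intro m hm
    simp only [sF, Finset.mem_Icc] at hm ⊢
    omega
  · intro m hm
    omega
  · intro m hm
    simp only [sF, Finset.mem_Icc] at hm
    omega
  · intro m hm
    rfl

end B3x

open B3x

theorem B3_of (h1 : Pool.Agent.TH250.Z3.StB1) (h2 : Pool.Agent.TH250.Z3.StR1) :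
    Pool.Agent.TH250.Z3.StB3 := by
  obtain ⟨C2, hC2, hK2⟩ := KK_exp (b := 2) (by norm_num)
  refine ⟨C2, hC2, fun n hn x Q hQ B hB => ?_⟩
  have hL := LL_le n
  obtain ⟨F, hF, hNL⟩ := h1 hn x Q hQ
  have hdeg : ((PF n * Q).comp (X - C (LL n : ℚ))).natDegree + 2 ≤
      (QQ (Finset.Icc (7 * n / 2 + 1 - LL n) (17 * n / 2 - LL n))
        (fun k => mF n (k + LL n))).natDegree := by
    rw [QQ_deg, natDegree_comp, natDegree_X_sub_C, mul_one]
    have e1 : (PF n * Q).natDegree ≤ ((3 * n - n / 2) + (7 * n / 2 - n)) + (4 * n - 2) :=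
      Polynomial.natDegree_mul_le.trans (add_le_add (PF_deg n) hQ)
    have a1 : 7 * n / 2 = 3 * n + n / 2 := by omega
    have a2 : 17 * n / 2 = 8 * n + n / 2 := by omega
    rw [a1] at e1 ⊢
    rw [a2]
    omega
  have hd : ((PF n * Q).comp (X - C (LL n : ℚ))).degree <
      (QQ (Finset.Icc (7 * n / 2 + 1 - LL n) (17 * n / 2 - LL n))
        (fun k => mF n (k + LL n))).degree :=
    Polynomial.degree_lt_degree (by omega)
  have hs : ∀ k ∈ Finset.Icc (7 * n / 2 + 1 - LL n) (17 * n / 2 - LL n), 1 ≤ k := by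
    intro k hk
    rw [Finset.mem_Icc] at hk
    omega
  have hB' : ∀ y : ℝ, ‖Rc (Finset.Icc (7 * n / 2 + 1 - LL n) (17 * n / 2 - LL n))
      (fun k => mF n (k + LL n)) ((PF n * Q).comp (X - C (LL n : ℚ))) y‖ *
      Real.exp (-(2 * Real.pi * |y|)) ≤ B * (1 + y ^ 2)⁻¹ := by
    intro y
    refine le_trans (le_of_eq ?_) (hB y)
    rw [Rc_eq _ _ _ hd y, P_shift, QQ_shift, ← R_norm, map_mul]
    rw [norm_div, norm_mul]
    ring
  have e1 : |F| ≤ C2 * B :=
    Pool.Agent.ZF.B2_kernel2 _ _ _ hdeg hs F hF B hB' C2 hC2.le hK2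
  have e2 : |((rho n (PF n * Q) : ℚ) : ℝ)| ≤ ∑ k ∈ Finset.Icc (4 * n + 1) (8 * n),
      ((RK n k : ℚ) : ℝ) * |((Q.eval (-(k : ℚ)) : ℚ) : ℝ)| := by
    have e3 := h2 hn Q
    have e4 : ((|rho n (PF n * Q)| : ℚ) : ℝ) ≤ ((∑ k ∈ Finset.Icc (4 * n + 1) (8 * n),
      RK n k * |Q.eval (-(k : ℚ))| : ℚ) : ℝ) := by exact_mod_cast e3
    rw [Rat.cast_abs, Rat.cast_sum] at e4
    refine e4.trans (le_of_eq ?_)
    apply Finset.sum_congr rfl
    intro k _
    rw [Rat.cast_mul, Rat.cast_abs]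
  rw [hNL]
  calc |-F + 2 * ((x : ℝ) - zr 3) * ((rho n (PF n * Q) : ℚ) : ℝ)| ≤
      |-F| + |2 * ((x : ℝ) - zr 3) * ((rho n (PF n * Q) : ℚ) : ℝ)| := abs_add_le _ _
    _ = |F| + 2 * |(x : ℝ) - zr 3| * |((rho n (PF n * Q) : ℚ) : ℝ)| := by
        rw [abs_neg, abs_mul, abs_mul, abs_two]
    _ ≤ _ := add_le_add e1 (mul_le_mul_of_nonneg_left e2 (by positivity))

end

end Pool.Agent.TH480.Z3
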